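import Mathlib

/-!
There is no positive constant `α` such that every finite mixed graph `G` with a weight function has
an orientation keeping an `α` fraction of the weighted reachability of `G`.  The examples are
butterfly networks.
-/

namespace Pool.Agent.Results.MP_408802_co.NoConstantFraction

open Finset

/-- A finite mixed graph on the vertex type `V`: finitely many edges (indexed by `E`, each
having two distinct ends, the order of which is irrelevant) and finitely many arcs (indexed by `A`,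
each going from a vertex to a distinct vertex). Parallel edges and arcs are allowed. -/
structure MixedGraph (V : Type) where
  /-- index type of the edges -/
  E : Type
  /-- index type of the arcs -/
  A : Type
  finE : Finite E
  finA : Finite A
  /-- the two ends of an edge -/
  ends : E → V × V
  ends_ne : ∀ e, (ends e).1 ≠ (ends e).2
  /-- tail and head of an arc -/
  arc : A → V × V
  arc_ne : ∀ a, (arc a).1 ≠ (arc a).2

variable {V : Type}

/-- One step along an arc (forwards) or along an edge (in either direction). -/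
def Step (G : MixedGraph V) (u v : V) : Prop :=
  (∃ a, G.arc a = (u, v)) ∨ (∃ e, G.ends e = (u, v) ∨ G.ends e = (v, u))

/-- Reachability. -/
def Reach (G : MixedGraph V) (u v : V) : Prop := Relation.ReflTransGen (Step G) u v

/-- The orientation of `G` given by `o`: the edge `e` with ends `(u, v)` becomes the arc `(u, v)` if
`o e` is true and the arc `(v, u)` if it is false. -/
def orient (G : MixedGraph V) (o : G.E → Bool) : MixedGraph V where
  E := Empty
  A := G.A ⊕ G.E
  finE := inferInstance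
  finA := by
    have := G.finE
    have := G.finA
    infer_instance
  ends := fun e => e.elim
  ends_ne := fun e => e.elim
  arc := Sum.elim G.arc (fun e => if o e then G.ends e else (G.ends e).swap)
  arc_ne := by
    rintro (a | e)
    · exact G.arc_ne a
    · have := G.ends_ne e
      by_cases h : o e
      · simpa [h] using this
      · simpa [h] using this.symm

open Classical in
/-- The weighted reachability `R(G,w)`. -/
noncomputable def R [Fintype V] (G : MixedGraph V) (w : V → ℕ) : ℕ :=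
  2 * ∑ v, (w v).choose 2 +
    ∑ p : V × V, if p.1 ≠ p.2 ∧ Reach G p.1 p.2 then w p.1 * w p.2 else 0

/-- the direction of a switch: `b` may pass to `c` -/
def Pass (d : Bool) (b c : Bool) : Prop := b = c ∨ (b = !d ∧ c = d)

lemma step_orient {G : MixedGraph V} {o : G.E → Bool} {u v : V} :
    Step (orient G o) u v ↔ (∃ a, G.arc a = (u, v)) ∨
      (∃ e, (o e = true ∧ G.ends e = (u, v)) ∨ (o e = false ∧ G.ends e = (v, u))) := by
  constructor
  · rintro (⟨a | e, h⟩ | ⟨e, _⟩)
    · exact Or.inl ⟨a, h⟩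
    · refine Or.inr ⟨e, ?_⟩
      by_cases h2 : o e
      · left
        refine ⟨h2, ?_⟩
        simpa [orient, h2] using h
      · right
        refine ⟨by simpa using h2, ?_⟩
        have h3 : (G.ends e).swap = (u, v) := by simpa [orient, h2] using h
        rw [← Prod.swap_swap (G.ends e), h3]
        rfl
    · exact e.elim
  · rintro (⟨a, h⟩ | ⟨e, ⟨h1, h2⟩ | ⟨h1, h2⟩⟩)
    · exact Or.inl ⟨Sum.inl a, h⟩
    · exact Or.inl ⟨Sum.inr e, by simp [orient, h1, h2]⟩
    · exact Or.inl ⟨Sum.inr e, by simp [orient, h1, h2]⟩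

/-- The properties of the networks. -/
structure Net (k : ℕ) where
  V : Type
  I : Type
  O : Type
  finV : Fintype V
  finI : Fintype I
  finO : Fintype O
  G : MixedGraph V
  inp : I → V
  out : O → V
  inp_inj : Function.Injective inp
  out_inj : Function.Injective out
  ne : ∀ i t, inp i ≠ out t
  cardI : Fintype.card I = 2 ^ k
  cardO : Fintype.card O = 2 ^ k
  reach : ∀ i t, Reach G (inp i) (out t)
  no_in : ∀ i v, ¬ Step G v (inp i)
  no_out : ∀ t v, ¬ Step G (out t) v

/-- Number of outputs reachable from the input `i` under the orientation `o`. -/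
noncomputable def cnt {k : ℕ} (N : Net k) (o : N.G.E → Bool) (i : N.I) : ℕ :=
  Set.ncard {t : N.O | Reach (orient N.G o) (N.inp i) (N.out t)}

/-- The quadratic bound. -/
def Bound {k : ℕ} (N : Net k) : Prop :=
  ∀ o : N.G.E → Bool, 3 ^ k * (@Finset.sum N.I ℕ _ (@Finset.univ N.I N.finI)
    (fun i => (cnt N o i) ^ 2)) ≤ 16 ^ k

/-- The trivial network. -/
def base : Net 0 where
  V := Bool
  I := Unit
  O := Unit
  finV := inferInstance
  finI := inferInstance
  finO := inferInstance
  G :=
    { E := Empty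
      A := Unit
      finE := inferInstance
      finA := inferInstance
      ends := fun e => e.elim
      ends_ne := fun e => e.elim
      arc := fun _ => (false, true)
      arc_ne := fun _ => by simp }
  inp := fun _ => false
  out := fun _ => true
  inp_inj := fun _ _ _ => rfl
  out_inj := fun _ _ _ => rfl
  ne := by simp
  cardI := by simp
  cardO := by simp
  reach := fun _ _ => Relation.ReflTransGen.single (Or.inl ⟨(), rfl⟩)
  no_in := by
    rintro _ v (⟨a, h⟩ | ⟨e, _⟩)
    · simp at h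
    · exact e.elim
  no_out := by
    rintro _ v (⟨a, h⟩ | ⟨e, _⟩)
    · simp at h
    · exact e.elim

lemma base_bound : Bound base := by
  intro o
  have h : ∀ i, cnt base o i ≤ 1 := by
    intro i
    unfold cnt
    refine (Set.ncard_le_ncard (Set.subset_univ _) (Set.toFinite (α := Unit) _)).trans ?_
    exact (Set.ncard_univ Unit).trans_le (by simp)
  show 3 ^ 0 * (∑ i : Unit, (cnt base o i) ^ 2) ≤ 16 ^ 0
  have h0 := h ()
  simp only [pow_zero, one_mul, Finset.univ_unique, Finset.sum_singleton]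
  show (cnt base o ()) ^ 2 ≤ 1
  nlinarith

/-- The graph of the next network: two copies of the old one behind a layer of switches. -/
def nextG {k : ℕ} (N : Net k) :
    MixedGraph ((Bool × N.I) ⊕ ((Bool × N.I) ⊕ (Bool × N.V))) where
  E := N.I ⊕ (Bool × N.G.E)
  A := (Bool × N.I) ⊕ ((Bool × N.I) ⊕ (Bool × N.G.A))
  finE := by
    have := N.G.finE
    have := N.finI
    infer_instance
  finA := by
    have := N.G.finA
    have := N.finI
    infer_instance
  ends := fun e => match e with
    | Sum.inl i => (Sum.inr (Sum.inl (false, i)), Sum.inr (Sum.inl (true, i)))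
    | Sum.inr (c, e) => (Sum.inr (Sum.inr (c, (N.G.ends e).1)),
        Sum.inr (Sum.inr (c, (N.G.ends e).2)))
  ends_ne := by
    rintro (i | ⟨c, e⟩)
    · simp
    · simpa using N.G.ends_ne e
  arc := fun a => match a with
    | Sum.inl x => (Sum.inl x, Sum.inr (Sum.inl x))
    | Sum.inr (Sum.inl (b, i)) => (Sum.inr (Sum.inl (b, i)), Sum.inr (Sum.inr (b, N.inp i)))
    | Sum.inr (Sum.inr (c, a)) => (Sum.inr (Sum.inr (c, (N.G.arc a).1)),
        Sum.inr (Sum.inr (c, (N.G.arc a).2)))
  arc_ne := by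
    rintro (x | ⟨b, i⟩ | ⟨c, a⟩)
    · simp
    · simp
    · simpa using N.G.arc_ne a

lemma reach_copy {k : ℕ} (N : Net k) (c : Bool) {u v : N.V} (h : Reach N.G u v) :
    Reach (nextG N) (Sum.inr (Sum.inr (c, u))) (Sum.inr (Sum.inr (c, v))) := by
  unfold Reach at h
  induction h with
  | refl => exact Relation.ReflTransGen.refl
  | tail _ hs ih =>
    refine ih.tail ?_
    rcases hs with ⟨a, ha⟩ | ⟨e, he | he⟩
    · exact Or.inl ⟨Sum.inr (Sum.inr (c, a)), by simp [nextG, ha]⟩
    · exact Or.inr ⟨Sum.inr (c, e), Or.inl (by simp [nextG, he])⟩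
    · exact Or.inr ⟨Sum.inr (c, e), Or.inr (by simp [nextG, he])⟩

/-- The next network. -/
def next {k : ℕ} (N : Net k) : Net (k + 1) where
  V := (Bool × N.I) ⊕ ((Bool × N.I) ⊕ (Bool × N.V))
  I := Bool × N.I
  O := Bool × N.O
  finV := by
    have := N.finV
    have := N.finI
    infer_instance
  finI := @instFintypeProd Bool N.I _ N.finI
  finO := @instFintypeProd Bool N.O _ N.finO
  G := nextG N
  inp := fun x => Sum.inl x
  out := fun y => Sum.inr (Sum.inr (y.1, N.out y.2))
  inp_inj := Sum.inl_injective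
  out_inj := by
    rintro ⟨b, t⟩ ⟨b', t'⟩ h
    simp only [Sum.inr.injEq, Prod.mk.injEq] at h
    obtain ⟨h1, h2⟩ := h
    rw [h1, N.out_inj h2]
  ne := by simp
  cardI := by
    have := N.finI
    have h := N.cardI
    rw [Fintype.card_prod]
    simp only [Fintype.card_bool]
    rw [pow_succ, mul_comm, ← h]
  cardO := by
    have := N.finO
    have h := N.cardO
    rw [Fintype.card_prod]
    simp only [Fintype.card_bool]
    rw [pow_succ, mul_comm, ← h]
  reach := by
    rintro ⟨b, i⟩ ⟨c, t⟩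
    have h1 : Step (nextG N) (Sum.inl (b, i)) (Sum.inr (Sum.inl (b, i))) :=
      Or.inl ⟨Sum.inl (b, i), rfl⟩
    have h2 : Reach (nextG N) (Sum.inr (Sum.inl (b, i))) (Sum.inr (Sum.inl (c, i))) := by
      rcases b <;> rcases c
      · exact Relation.ReflTransGen.refl
      · exact Relation.ReflTransGen.single (Or.inr ⟨Sum.inl i, Or.inl rfl⟩)
      · exact Relation.ReflTransGen.single (Or.inr ⟨Sum.inl i, Or.inr rfl⟩)
      · exact Relation.ReflTransGen.refl
    have h3 : Step (nextG N) (Sum.inr (Sum.inl (c, i))) (Sum.inr (Sum.inr (c, N.inp i))) :=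
      Or.inl ⟨Sum.inr (Sum.inl (c, i)), rfl⟩
    exact ((Relation.ReflTransGen.single h1).trans (h2.tail h3)).trans
      (reach_copy N c (N.reach i t))
  no_in := by
    rintro x v (⟨(a | ⟨b, i⟩ | ⟨c, a⟩), h⟩ | ⟨(i | ⟨c, e⟩), h | h⟩) <;> simp [nextG] at h
  no_out := by
    rintro ⟨c, t⟩ v (⟨(a | ⟨b, i⟩ | ⟨c', a⟩), h⟩ | ⟨(i | ⟨c', e⟩), h | h⟩)
    · simp [nextG] at h
    · simp [nextG] at h
    · simp only [nextG, Prod.mk.injEq, Sum.inr.injEq] at h
      exact N.no_out t (N.G.arc a).2 (Or.inl ⟨a, by rw [← h.1.2]⟩)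
    · simp [nextG] at h
    · simp [nextG] at h
    · simp only [nextG, Prod.mk.injEq, Sum.inr.injEq] at h
      exact N.no_out t (N.G.ends e).2 (Or.inr ⟨e, Or.inl (by rw [← h.1.2])⟩)
    · simp only [nextG, Prod.mk.injEq, Sum.inr.injEq] at h
      exact N.no_out t (N.G.ends e).1 (Or.inr ⟨e, Or.inr (by rw [← h.2.2])⟩)

/-- the part of an orientation of the next network on the copy `c` -/
def part {k : ℕ} {N : Net k} (o : (nextG N).E → Bool) (c : Bool) : N.G.E → Bool :=
  fun e => o (Sum.inr (c, e))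

/-- the switch `i` -/
def sw {k : ℕ} {N : Net k} (o : (nextG N).E → Bool) (i : N.I) : Bool := o (Sum.inl i)

/-- invariant along paths -/
def Inv {k : ℕ} (N : Net k) (o : (nextG N).E → Bool) (b : Bool) (i : N.I) :
    ((Bool × N.I) ⊕ ((Bool × N.I) ⊕ (Bool × N.V))) → Prop := fun x => match x with
  | Sum.inl y => y = (b, i)
  | Sum.inr (Sum.inl (c, j)) => j = i ∧ Pass (sw o i) b c
  | Sum.inr (Sum.inr (c, v)) => Pass (sw o i) b c ∧ Reach (orient N.G (part o c)) (N.inp i) v

lemma inv_reach {k : ℕ} (N : Net k) (o : (nextG N).E → Bool) (b : Bool) (i : N.I)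
    (x : (Bool × N.I) ⊕ ((Bool × N.I) ⊕ (Bool × N.V)))
    (h : Reach (orient (nextG N) o) (Sum.inl (b, i)) x) : Inv N o b i x := by
  unfold Reach at h
  induction h with
  | refl => rfl
  | @tail y z _ hs ih =>
    rw [step_orient] at hs
    rcases hs with ⟨(a | ⟨b', i'⟩ | ⟨c', a⟩), h⟩ | ⟨(i' | ⟨c', e⟩), ⟨h1, h⟩ | ⟨h1, h⟩⟩
    · simp only [nextG, Prod.mk.injEq] at h
      obtain ⟨rfl, rfl⟩ := h
      have h2 : a = (b, i) := ih
      subst h2
      exact ⟨rfl, Or.inl rfl⟩
    · simp only [nextG, Prod.mk.injEq] at h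
      obtain ⟨rfl, rfl⟩ := h
      obtain ⟨h2, h3⟩ := ih
      subst h2
      exact ⟨h3, Relation.ReflTransGen.refl⟩
    · simp only [nextG, Prod.mk.injEq] at h
      obtain ⟨rfl, rfl⟩ := h
      obtain ⟨h2, h3⟩ := ih
      refine ⟨h2, h3.tail ?_⟩
      rw [step_orient]
      exact Or.inl ⟨a, rfl⟩
    · simp only [nextG, Prod.mk.injEq] at h
      obtain ⟨rfl, rfl⟩ := h
      obtain ⟨h2, h3⟩ := ih
      subst h2
      refine ⟨rfl, ?_⟩
      have h4 : sw o i' = true := h1
      rw [h4] at h3 ⊢
      revert h3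
      unfold Pass
      cases b <;> simp
    · simp only [nextG, Prod.mk.injEq] at h
      obtain ⟨rfl, rfl⟩ := h
      obtain ⟨h2, h3⟩ := ih
      subst h2
      refine ⟨rfl, ?_⟩
      have h4 : sw o i' = false := h1
      rw [h4] at h3 ⊢
      revert h3
      unfold Pass
      cases b <;> simp
    · simp only [nextG, Prod.mk.injEq] at h
      obtain ⟨rfl, rfl⟩ := h
      obtain ⟨h2, h3⟩ := ih
      refine ⟨h2, h3.tail ?_⟩
      rw [step_orient]
      exact Or.inr ⟨e, Or.inl ⟨h1, rfl⟩⟩
    · simp only [nextG, Prod.mk.injEq] at h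
      obtain ⟨rfl, rfl⟩ := h
      obtain ⟨h2, h3⟩ := ih
      refine ⟨h2, h3.tail ?_⟩
      rw [step_orient]
      exact Or.inr ⟨e, Or.inr ⟨h1, rfl⟩⟩

open Classical in
lemma cnt_next {k : ℕ} (N : Net k) (o : (nextG N).E → Bool) (b : Bool) (i : N.I) :
    cnt (next N) o (b, i) ≤ (if Pass (sw o i) b false then cnt N (part o false) i else 0) +
      (if Pass (sw o i) b true then cnt N (part o true) i else 0) := by
  have fO : Finite N.O := by
    have := N.finO
    infer_instance
  have hsub : {t : Bool × N.O | Reach (orient (nextG N) o) (Sum.inl (b, i))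
        (Sum.inr (Sum.inr (t.1, N.out t.2)))} ⊆
      (if Pass (sw o i) b false then (fun t => (false, t)) ''
        {t : N.O | Reach (orient N.G (part o false)) (N.inp i) (N.out t)} else ∅) ∪
      (if Pass (sw o i) b true then (fun t => (true, t)) ''
        {t : N.O | Reach (orient N.G (part o true)) (N.inp i) (N.out t)} else ∅) := by
    rintro ⟨c, t⟩ ht
    have h2 := inv_reach N o b i _ ht
    obtain ⟨h3, h4⟩ := h2
    rcases c
    · left
      rw [if_pos h3]
      exact ⟨t, h4, rfl⟩
    · right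
      rw [if_pos h3]
      exact ⟨t, h4, rfl⟩
  have h1 : cnt (next N) o (b, i) = Set.ncard {t : Bool × N.O |
      Reach (orient (nextG N) o) (Sum.inl (b, i)) (Sum.inr (Sum.inr (t.1, N.out t.2)))} := rfl
  rw [h1]
  refine (Set.ncard_le_ncard hsub (Set.toFinite _)).trans ((Set.ncard_union_le _ _).trans ?_)
  refine add_le_add ?_ ?_
  · split_ifs
    · exact Set.ncard_image_le (Set.toFinite _)
    · simp
  · split_ifs
    · exact Set.ncard_image_le (Set.toFinite _)
    · simp

lemma next_bound {k : ℕ} (N : Net k) (hN : Bound N) : Bound (next N) := by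
  classical
  intro o
  let _ := N.finI
  have h0 := hN (part o false)
  have h1 := hN (part o true)
  have key : ∀ i : N.I, 3 * (cnt (next N) o (false, i) ^ 2 + cnt (next N) o (true, i) ^ 2) ≤
      8 * (cnt N (part o false) i ^ 2 + cnt N (part o true) i ^ 2) := by
    intro i
    have a1 := cnt_next N o false i
    have a2 := cnt_next N o true i
    set x := cnt N (part o false) i
    set y := cnt N (part o true) i
    set X := cnt (next N) o (false, i)
    set Y := cnt (next N) o (true, i)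
    have sq : ∀ a b : ℕ, a ≤ b → a ^ 2 ≤ b ^ 2 := fun a b h => Nat.pow_le_pow_left h 2
    have id1 : ∀ p q : ℕ, 3 * ((p + q) ^ 2 + q ^ 2) ≤ 8 * (p ^ 2 + q ^ 2) := by
      intro p q
      zify
      nlinarith [sq_nonneg ((p : ℤ) * 5 - 3 * q)]
    rcases hd : sw o i with _ | _
    · rw [hd] at a1 a2
      simp only [Pass, Bool.not_false] at a1 a2
      simp at a1 a2
      have := sq _ _ a1
      have := sq _ _ a2
      have := id1 y x
      nlinarith
    · rw [hd] at a1 a2
      simp only [Pass, Bool.not_true] at a1 a2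
      simp at a1 a2
      have := sq _ _ a1
      have := sq _ _ a2
      have := id1 x y
      nlinarith
  have hsum : ∑ x : Bool × N.I, cnt (next N) o x ^ 2 =
      ∑ i : N.I, (cnt (next N) o (false, i) ^ 2 + cnt (next N) o (true, i) ^ 2) := by
    rw [Fintype.sum_prod_type]
    simp only [Fintype.sum_bool]
    rw [← Finset.sum_add_distrib]
    refine Finset.sum_congr rfl fun i _ => ?_
    rw [add_comm]
  have hsum' : 3 * ∑ x : Bool × N.I, cnt (next N) o x ^ 2 ≤
      8 * (∑ i : N.I, cnt N (part o false) i ^ 2 + ∑ i : N.I, cnt N (part o true) i ^ 2) := by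
    rw [hsum, Finset.mul_sum, ← Finset.sum_add_distrib, Finset.mul_sum]
    exact Finset.sum_le_sum fun i _ => key i
  have goal' : 3 ^ (k + 1) * ∑ x : Bool × N.I, cnt (next N) o x ^ 2 ≤ 16 ^ (k + 1) := by
    calc 3 ^ (k + 1) * ∑ x : Bool × N.I, cnt (next N) o x ^ 2
        = 3 ^ k * (3 * ∑ x : Bool × N.I, cnt (next N) o x ^ 2) := by ring
      _ ≤ 3 ^ k * (8 * (∑ i : N.I, cnt N (part o false) i ^ 2 +
            ∑ i : N.I, cnt N (part o true) i ^ 2)) := Nat.mul_le_mul_left _ hsum'
      _ = 8 * (3 ^ k * ∑ i : N.I, cnt N (part o false) i ^ 2) +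
            8 * (3 ^ k * ∑ i : N.I, cnt N (part o true) i ^ 2) := by ring
      _ ≤ 8 * 16 ^ k + 8 * 16 ^ k := by
          exact add_le_add (Nat.mul_le_mul_left _ h0) (Nat.mul_le_mul_left _ h1)
      _ = 16 ^ (k + 1) := by ring
  exact goal'

lemma exists_net : ∀ k : ℕ, ∃ N : Net k, Bound N
  | 0 => ⟨base, base_bound⟩
  | (k + 1) => by
    obtain ⟨N, hN⟩ := exists_net k
    exact ⟨next N, next_bound N hN⟩

/-- a step of an orientation is a step of the mixed graph -/
lemma step_of_orient {G : MixedGraph V} {o : G.E → Bool} {u v : V} (h : Step (orient G o) u v) :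
    Step G u v := by
  rw [step_orient] at h
  rcases h with h | ⟨e, ⟨_, h⟩ | ⟨_, h⟩⟩
  · exact Or.inl h
  · exact Or.inr ⟨e, Or.inl h⟩
  · exact Or.inr ⟨e, Or.inr h⟩

/-- the sources and sinks -/
def Term {k : ℕ} (N : Net k) (v : N.V) : Prop := (∃ i, N.inp i = v) ∨ (∃ t, N.out t = v)

open Classical in
/-- weight one on inputs and outputs, weight zero elsewhere -/
noncomputable def wt {k : ℕ} (N : Net k) (v : N.V) : ℕ := if Term N v then 1 else 0

lemma wt_choose {k : ℕ} (N : Net k) (v : N.V) : (wt N v).choose 2 = 0 := by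
  unfold wt
  split_ifs <;> rfl

lemma reach_term {k : ℕ} (N : Net k) (o : N.G.E → Bool) {u v : N.V} (huv : u ≠ v)
    (hu : Term N u) (hv : Term N v) (h : Reach (orient N.G o) u v) :
    ∃ i t, N.inp i = u ∧ N.out t = v := by
  have h1 : ∃ x, Step (orient N.G o) u x := by
    rcases Relation.ReflTransGen.cases_head h with h | ⟨x, hx, _⟩
    · exact absurd h huv
    · exact ⟨x, hx⟩
  have h2 : ∃ x, Step (orient N.G o) x v := by
    rcases Relation.ReflTransGen.cases_tail h with h | ⟨x, _, hx⟩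
    · exact absurd h.symm huv
    · exact ⟨x, hx⟩
  obtain ⟨x, hx⟩ := h1
  obtain ⟨y, hy⟩ := h2
  rcases hu with ⟨i, rfl⟩ | ⟨t, rfl⟩
  · rcases hv with ⟨j, rfl⟩ | ⟨t, rfl⟩
    · exact absurd (step_of_orient hy) (N.no_in j y)
    · exact ⟨i, t, rfl, rfl⟩
  · exact absurd (step_of_orient hx) (N.no_out t x)

lemma R_upper {k : ℕ} (N : Net k) (o : N.G.E → Bool) :
    @R N.V N.finV (orient N.G o) (wt N) ≤
      @Finset.sum N.I ℕ _ (@Finset.univ N.I N.finI) (fun i => cnt N o i) := by
  classical
  let _ := N.finV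
  let _ := N.finI
  let _ := N.finO
  unfold R
  rw [Finset.sum_eq_zero (fun v _ => wt_choose N v), mul_zero, zero_add]
  have h1 : ∀ p : N.V × N.V, (if p.1 ≠ p.2 ∧ Reach (orient N.G o) p.1 p.2 then
      wt N p.1 * wt N p.2 else 0) ≤
      if (∃ i t, N.inp i = p.1 ∧ N.out t = p.2 ∧
        Reach (orient N.G o) (N.inp i) (N.out t)) then 1 else 0 := by
    intro p
    by_cases hp : p.1 ≠ p.2 ∧ Reach (orient N.G o) p.1 p.2
    · rw [if_pos hp]
      by_cases h2 : Term N p.1
      · by_cases h3 : Term N p.2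
        · obtain ⟨i, t, h4, h5⟩ := reach_term N o hp.1 h2 h3 hp.2
          rw [if_pos ⟨i, t, h4, h5, by rw [h4, h5]; exact hp.2⟩]
          simp [wt, h2, h3]
        · simp [wt, h3]
      · simp [wt, h2]
    · rw [if_neg hp]
      exact Nat.zero_le _
  refine (Finset.sum_le_sum fun p _ => h1 p).trans ?_
  rw [← Finset.card_filter]
  have h2 : (Finset.univ.filter (fun p : N.V × N.V => ∃ i t, N.inp i = p.1 ∧ N.out t = p.2 ∧
        Reach (orient N.G o) (N.inp i) (N.out t))) ⊆
      (Finset.univ.filter (fun x : N.I × N.O =>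
        Reach (orient N.G o) (N.inp x.1) (N.out x.2))).image
          (fun x => (N.inp x.1, N.out x.2)) := by
    intro p hp
    rw [Finset.mem_filter] at hp
    obtain ⟨_, i, t, h3, h4, h5⟩ := hp
    rw [Finset.mem_image]
    exact ⟨(i, t), by simpa using h5, Prod.ext h3 h4⟩
  refine (Finset.card_le_card h2).trans (Finset.card_image_le.trans ?_)
  rw [Finset.card_filter, Fintype.sum_prod_type]
  refine Finset.sum_le_sum fun i _ => ?_
  rw [← Finset.card_filter, ← Set.ncard_coe_finset]
  refine le_of_eq ?_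
  unfold cnt
  congr 1
  ext t
  simp

lemma R_lower {k : ℕ} (N : Net k) : 4 ^ k ≤ @R N.V N.finV N.G (wt N) := by
  classical
  let _ := N.finV
  let _ := N.finI
  let _ := N.finO
  unfold R
  refine le_trans ?_ (Nat.le_add_left _ _)
  have h1 : ((Finset.univ : Finset (N.I × N.O)).image (fun x => (N.inp x.1, N.out x.2))).card =
      4 ^ k := by
    rw [Finset.card_image_of_injective, Finset.card_univ, Fintype.card_prod]
    · have e1 : Fintype.card N.I = 2 ^ k := N.cardI
      have e2 : Fintype.card N.O = 2 ^ k := N.cardO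
      rw [e1, e2, ← mul_pow]
      norm_num
    · rintro ⟨i, t⟩ ⟨i', t'⟩ h
      simp only [Prod.mk.injEq] at h
      rw [N.inp_inj h.1, N.out_inj h.2]
  rw [← h1, Finset.card_eq_sum_ones]
  refine le_trans ?_ (Finset.sum_le_sum_of_subset (Finset.subset_univ
    ((Finset.univ : Finset (N.I × N.O)).image (fun x => (N.inp x.1, N.out x.2)))))
  refine Finset.sum_le_sum fun p hp => ?_
  rw [Finset.mem_image] at hp
  obtain ⟨⟨i, t⟩, _, rfl⟩ := hp
  rw [if_pos ⟨N.ne i t, N.reach i t⟩]
  have h2 : Term N (N.inp i) := Or.inl ⟨i, rfl⟩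
  have h3 : Term N (N.out t) := Or.inr ⟨t, rfl⟩
  simp [wt, h2, h3]

lemma total_sq {k : ℕ} (N : Net k) (hN : Bound N) (o : N.G.E → Bool) :
    3 ^ k * (@R N.V N.finV (orient N.G o) (wt N)) ^ 2 ≤ 32 ^ k := by
  let _ := N.finI
  have h1 := R_upper N o
  have h2 := hN o
  have h3 : (∑ i : N.I, cnt N o i) ^ 2 ≤ 2 ^ k * ∑ i : N.I, cnt N o i ^ 2 := by
    have h4 := sq_sum_le_card_mul_sum_sq (s := (Finset.univ : Finset N.I)) (f := cnt N o)
    rw [Finset.card_univ] at h4
    have e1 : Fintype.card N.I = 2 ^ k := N.cardI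
    rw [e1] at h4
    exact_mod_cast h4
  calc 3 ^ k * (@R N.V N.finV (orient N.G o) (wt N)) ^ 2
      ≤ 3 ^ k * (∑ i : N.I, cnt N o i) ^ 2 :=
        Nat.mul_le_mul_left _ (Nat.pow_le_pow_left h1 2)
    _ ≤ 3 ^ k * (2 ^ k * ∑ i : N.I, cnt N o i ^ 2) := Nat.mul_le_mul_left _ h3
    _ = 2 ^ k * (3 ^ k * ∑ i : N.I, cnt N o i ^ 2) := by ring
    _ ≤ 2 ^ k * 16 ^ k := Nat.mul_le_mul_left _ h2
    _ = 32 ^ k := by
        rw [← mul_pow]
        norm_num

/-- **Main result.** For every `α > 0` there are a finite mixed graph `G` and a weight function `w`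
such that every orientation of `G` has weighted reachability less than `α · R(G,w)`. -/
theorem result : ∀ α : ℝ, 0 < α → ∃ (V : Type) (_ : Fintype V) (G : MixedGraph V) (w : V → ℕ),
    ∀ o : G.E → Bool, (R (orient G o) w : ℝ) < α * (R G w : ℝ) := by
  intro α hα
  obtain ⟨k, hk⟩ := exists_pow_lt_of_lt_one (show (0 : ℝ) < α ^ 2 by positivity)
    (show (2 / 3 : ℝ) < 1 by norm_num)
  obtain ⟨N, hN⟩ := exists_net k
  refine ⟨N.V, N.finV, N.G, wt N, fun o => ?_⟩
  have h1 := total_sq N hN o
  have h2 := R_lower N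
  set x := @R N.V N.finV (orient N.G o) (wt N) with hx
  set y := @R N.V N.finV N.G (wt N) with hy
  have h1' : (3 : ℝ) ^ k * (x : ℝ) ^ 2 ≤ 32 ^ k := by exact_mod_cast h1
  have h2' : (4 : ℝ) ^ k ≤ (y : ℝ) := by exact_mod_cast h2
  have h3 : (x : ℝ) ^ 2 < (α * y) ^ 2 := by
    have e3 : (32 : ℝ) ^ k = 3 ^ k * ((4 : ℝ) ^ k) ^ 2 * (2 / 3) ^ k := by
      rw [← pow_mul, mul_comm k 2, pow_mul, ← mul_pow, ← mul_pow]
      norm_num
    have h3k : (0 : ℝ) < 3 ^ k := by positivity
    have h4 : (x : ℝ) ^ 2 ≤ ((4 : ℝ) ^ k) ^ 2 * (2 / 3) ^ k := by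
      have : (3 : ℝ) ^ k * (x : ℝ) ^ 2 ≤ 3 ^ k * (((4 : ℝ) ^ k) ^ 2 * (2 / 3) ^ k) := by
        rw [← mul_assoc, ← e3]
        exact h1'
      exact le_of_mul_le_mul_left this h3k
    have h5 : ((4 : ℝ) ^ k) ^ 2 * (2 / 3) ^ k < ((4 : ℝ) ^ k) ^ 2 * α ^ 2 := by
      apply mul_lt_mul_of_pos_left hk
      positivity
    have h6 : ((4 : ℝ) ^ k) ^ 2 * α ^ 2 ≤ (α * y) ^ 2 := by
      rw [mul_pow, mul_comm]
      apply mul_le_mul_of_nonneg_left _ (by positivity)
      exact pow_le_pow_left₀ (by positivity) h2' 2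
    linarith
  exact lt_of_pow_lt_pow_left₀ 2 (by positivity) h3

end Pool.Agent.Results.MP_408802_co.NoConstantFraction
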